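import Pool.Agent.H47.UG.Lat

/-!
# Weights and coefficients of total derivatives
-/

set_option autoImplicit false

open MvPolynomial

namespace Pool.Agent.H30.UG

open Pool.Agent.H47.UG

section

variable {σ K L : Type} [Field K] [Field L] [Algebra K L]

/-- All the coefficients are in `S`. -/
def Co (S : Subalgebra K L) (P : MvPolynomial σ L) : Prop := ∀ b, coeff b P ∈ S

theorem Co.add {S : Subalgebra K L} {P Q : MvPolynomial σ L} (hP : Co S P) (hQ : Co S Q) : Co S (P + Q) := by
  intro b
  rw [coeff_add]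
  exact S.add_mem (hP b) (hQ b)

theorem Co.mul {S : Subalgebra K L} {P Q : MvPolynomial σ L} (hP : Co S P) (hQ : Co S Q) : Co S (P * Q) := by
  classical
  intro b
  rw [coeff_mul]
  exact S.sum_mem fun x _ => S.mul_mem (hP _) (hQ _)

theorem co_zero (S : Subalgebra K L) : Co S (0 : MvPolynomial σ L) := by
  intro b
  rw [coeff_zero]
  exact S.zero_mem

theorem co_C {S : Subalgebra K L} {a : L} (ha : a ∈ S) : Co S (C a : MvPolynomial σ L) := by
  classical
  intro b
  rw [coeff_C]
  split_ifs
  · exact ha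
  · exact S.zero_mem

theorem co_one (S : Subalgebra K L) : Co S (1 : MvPolynomial σ L) := co_C S.one_mem

theorem co_X (S : Subalgebra K L) (p : σ) : Co S (X p : MvPolynomial σ L) := by
  classical
  intro b
  rw [coeff_X]
  split_ifs
  · exact S.one_mem
  · exact S.zero_mem

theorem co_monomial (S : Subalgebra K L) (b : σ →₀ ℕ) : Co S (monomial b (1 : L)) := by
  classical
  intro c
  rw [coeff_monomial]
  split_ifs
  · exact S.one_mem
  · exact S.zero_mem

theorem Co.sum {ι : Type} {S : Subalgebra K L} (s : Finset ι) (f : ι → MvPolynomial σ L)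
    (h : ∀ i ∈ s, Co S (f i)) : Co S (∑ i ∈ s, f i) := by
  intro b
  rw [coeff_sum]
  exact S.sum_mem fun i hi => h i hi b

theorem Co.prod {ι : Type} {S : Subalgebra K L} (s : Finset ι) (f : ι → MvPolynomial σ L)
    (h : ∀ i ∈ s, Co S (f i)) : Co S (∏ i ∈ s, f i) := by
  classical
  induction s using Finset.induction_on with
  | empty => simpa using co_one S
  | insert a s ha ih =>
    rw [Finset.prod_insert ha]
    exact (h a (Finset.mem_insert_self _ _)).mul (ih fun i hi => h i (Finset.mem_insert_of_mem hi))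

/-- All the monomials have weight `m`. -/
def Wt (w : σ → ℕ) (m : ℕ) (P : MvPolynomial σ L) : Prop := ∀ b, coeff b P ≠ 0 → Finsupp.weight w b = m

variable {w : σ → ℕ}

theorem Wt.add {m : ℕ} {P Q : MvPolynomial σ L} (hP : Wt w m P) (hQ : Wt w m Q) : Wt w m (P + Q) := by
  intro b hb
  rw [coeff_add] at hb
  by_cases h1 : coeff b P = 0
  · rw [h1, zero_add] at hb
    exact hQ b hb
  · exact hP b h1

theorem wt_zero (w : σ → ℕ) (m : ℕ) : Wt w m (0 : MvPolynomial σ L) := by
  intro b hb
  simp at hb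

theorem wt_C (w : σ → ℕ) (a : L) : Wt w 0 (C a : MvPolynomial σ L) := by
  classical
  intro b hb
  rw [coeff_C] at hb
  split_ifs at hb with h
  · rw [← h, map_zero]
  · exact absurd rfl hb

theorem wt_monomial (w : σ → ℕ) (b : σ →₀ ℕ) (a : L) : Wt w (Finsupp.weight w b) (monomial b a) := by
  classical
  intro c hc
  rw [coeff_monomial] at hc
  split_ifs at hc with h
  · rw [h]
  · exact absurd rfl hc

theorem wt_X (w : σ → ℕ) (p : σ) : Wt w (w p) (X p : MvPolynomial σ L) := by
  have h := wt_monomial (L := L) w (Finsupp.single p 1) 1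
  rwa [Finsupp.weight_single, one_smul] at h

theorem Wt.mul {m m' : ℕ} {P Q : MvPolynomial σ L} (hP : Wt w m P) (hQ : Wt w m' Q) : Wt w (m + m') (P * Q) := by
  classical
  intro b hb
  rw [coeff_mul] at hb
  obtain ⟨x, hx, h1⟩ := Finset.exists_ne_zero_of_sum_ne_zero hb
  have hx : x.1 + x.2 = b := by simpa using hx
  rw [← hx, map_add, hP x.1 (left_ne_zero_of_mul h1), hQ x.2 (right_ne_zero_of_mul h1)]

theorem Wt.sum {ι : Type} {m : ℕ} (s : Finset ι) (f : ι → MvPolynomial σ L)
    (h : ∀ i ∈ s, Wt w m (f i)) : Wt w m (∑ i ∈ s, f i) := by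
  intro b hb
  rw [coeff_sum] at hb
  obtain ⟨i, hi, h1⟩ := Finset.exists_ne_zero_of_sum_ne_zero hb
  exact h i hi b h1

theorem Wt.prod {ι : Type} (s : Finset ι) (m : ι → ℕ) (f : ι → MvPolynomial σ L)
    (h : ∀ i ∈ s, Wt w (m i) (f i)) : Wt w (∑ i ∈ s, m i) (∏ i ∈ s, f i) := by
  classical
  induction s using Finset.induction_on with
  | empty => simpa using wt_C (L := L) w 1
  | insert a s ha ih =>
    rw [Finset.prod_insert ha, Finset.sum_insert ha]
    exact (h a (Finset.mem_insert_self _ _)).mul (ih fun i hi => h i (Finset.mem_insert_of_mem hi))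

end

section

variable {K L : Type} [Field K] [Field L] [Algebra K L] {n : ℕ} (par : Fin n → Derivation K L L)

theorem tot_monomial (S : Subalgebra K L) (b : ℕ × Fin n →₀ ℕ) :
    Wt FF.w (Finsupp.weight FF.w b + 1) (totD par (monomial b 1)) ∧ Co S (totD par (monomial b 1)) := by
  classical
  induction b using Finsupp.induction_linear with
  | zero =>
    have h : totD par (monomial 0 1) = 0 := by
      change totD par 1 = 0
      exact Derivation.map_one_eq_zero _
    rw [h]
    exact ⟨wt_zero _ _, co_zero _⟩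
  | add b c hb hc =>
    have h : (monomial (b + c) (1 : L)) = monomial b 1 * monomial c 1 := by
      rw [monomial_mul, one_mul]
    rw [h, Derivation.leibniz, smul_eq_mul, smul_eq_mul, map_add]
    refine ⟨Wt.add ?_ ?_, Co.add ?_ ?_⟩
    · have h1 := (wt_monomial (L := L) FF.w b 1).mul hc.1
      rwa [← add_assoc] at h1
    · have h1 := (wt_monomial (L := L) FF.w c 1).mul hb.1
      rwa [← add_assoc, add_comm (Finsupp.weight FF.w c)] at h1
    · exact (co_monomial S b).mul hc.2
    · exact (co_monomial S c).mul hb.2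
  | single p k =>
    have h : (monomial (Finsupp.single p k) (1 : L)) = X p ^ k := (X_pow_eq_monomial).symm
    rw [h]
    induction k with
    | zero =>
      rw [pow_zero, Derivation.map_one_eq_zero]
      exact ⟨wt_zero _ _, co_zero _⟩
    | succ k ih =>
      have ih := ih (X_pow_eq_monomial).symm
      rw [pow_succ, Derivation.leibniz, smul_eq_mul, smul_eq_mul]
      have h2 : totD par (X p) = X (p.1 + 1, p.2) := totD_X par p.1 p.2
      have h3 : Wt FF.w (Finsupp.weight FF.w (Finsupp.single p k)) (X p ^ k : MvPolynomial (ℕ × Fin n) L) := by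
        have h4 := wt_monomial (L := L) FF.w (Finsupp.single p k) 1
        rwa [(X_pow_eq_monomial).symm] at h4
      have h4 : Co S (X p ^ k : MvPolynomial (ℕ × Fin n) L) := by
        have h5 := co_monomial S (Finsupp.single p k)
        rwa [(X_pow_eq_monomial).symm] at h5
      rw [h2]
      have e1 : Finsupp.weight FF.w (Finsupp.single p (k + 1)) = Finsupp.weight FF.w (Finsupp.single p k) + FF.w p := by
        rw [Finsupp.weight_single, Finsupp.weight_single, smul_eq_mul, smul_eq_mul]
        ring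
      refine ⟨Wt.add ?_ ?_, Co.add (h4.mul (co_X S _)) ((co_X S _).mul ih.2)⟩
      · have h5 := h3.mul (wt_X (L := L) FF.w (p.1 + 1, p.2))
        have e2 : FF.w (p.1 + 1, p.2) = FF.w p + 1 := rfl
        rwa [e2, ← add_assoc, ← e1] at h5
      · have h5 := (wt_X (L := L) FF.w p).mul ih.1
        rwa [← add_assoc, add_comm (FF.w p), ← e1] at h5

theorem tot_step (S : Subalgebra K L) (hS : ∀ l, ∀ a ∈ S, par l a ∈ S) {m : ℕ} {P : MvPolynomial (ℕ × Fin n) L}
    (h1 : Wt FF.w m P) (h2 : Co S P) : Wt FF.w (m + 1) (totD par P) ∧ Co S (totD par P) := by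
  classical
  have h3 : P = ∑ b ∈ P.support, C (coeff b P) * monomial b 1 := by
    conv_lhs => rw [P.as_sum]
    refine Finset.sum_congr rfl fun b _ => ?_
    rw [C_mul_monomial, mul_one]
  have h4 : totD par P = ∑ b ∈ P.support, totD par (C (coeff b P) * monomial b 1) := by
    conv_lhs => rw [h3, map_sum]
  have hC : ∀ a ∈ S, Wt FF.w 1 (totD par (C a)) ∧ Co S (totD par (C a)) := by
    intro a ha
    rw [totD_C]
    refine ⟨Wt.sum _ _ fun l _ => ?_, Co.sum _ _ fun l _ => (co_C (hS l a ha)).mul (co_X S _)⟩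
    have := (wt_C FF.w (par l a)).mul (wt_X (L := L) FF.w ((0 : ℕ), l))
    rwa [zero_add] at this
  rw [h4]
  refine ⟨Wt.sum _ _ fun b hb => ?_, Co.sum _ _ fun b hb => ?_⟩
  · have hw := h1 b (mem_support_iff.1 hb)
    rw [Derivation.leibniz, smul_eq_mul, smul_eq_mul]
    refine Wt.add ?_ ?_
    · have h5 := (wt_C FF.w (coeff b P)).mul (tot_monomial par S b).1
      rwa [zero_add, hw] at h5
    · have h5 := (wt_monomial (L := L) FF.w b 1).mul (hC _ (h2 b)).1
      rwa [hw] at h5
  · rw [Derivation.leibniz, smul_eq_mul, smul_eq_mul]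
    exact ((co_C (h2 b)).mul (tot_monomial par S b).2).add ((co_monomial S b).mul (hC _ (h2 b)).2)

theorem tot_iter (S : Subalgebra K L) (hS : ∀ l, ∀ a ∈ S, par l a ∈ S) (s : ℕ) {a : L} (ha : a ∈ S) :
    Wt FF.w s ((totD par : MvPolynomial (ℕ × Fin n) L → MvPolynomial (ℕ × Fin n) L)^[s] (C a)) ∧
      Co S ((totD par : MvPolynomial (ℕ × Fin n) L → MvPolynomial (ℕ × Fin n) L)^[s] (C a)) := by
  induction s with
  | zero => exact ⟨wt_C _ _, co_C ha⟩
  | succ s ih =>
    rw [Function.iterate_succ_apply']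
    exact tot_step par S hS ih.1 ih.2

theorem order_lt {m k : ℕ} (hm : m ≤ k) {P : MvPolynomial (ℕ × Fin n) L} (h : Wt FF.w m P) (b : ℕ × Fin n →₀ ℕ)
    (hb : coeff b P ≠ 0) : ∀ p ∈ b.support, p.1 < k := by
  intro p hp
  have h1 := h b hb
  have h2 : FF.w p ≤ Finsupp.weight FF.w b := Finsupp.le_weight_of_ne_zero' FF.w (Finsupp.mem_support_iff.1 hp)
  have h3 : FF.w p = p.1 + 1 := rfl
  omega

end

end Pool.Agent.H30.UG
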