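import Pool.Agent.H30.UG.Low
import Pool.Agent.H30.UG.Tot
import Pool.Agent.H33.UG.A1
import Pool.Agent.H38.UG.Patch
import Pool.Agent.H25.UG.SigF
import Pool.Agent.H1.UG.LocGGF
import Pool.Agent.H47.UG.Stab
import Pool.Agent.H47.UG.Symb

/-!
# STRICT: the symbols of jet differentials are sections of the graded pieces
-/

set_option autoImplicit false
set_option linter.unusedSectionVars false

open MvPolynomial

namespace Pool.Agent.H47.UG.FF

open Pool.Agent.H30.UG

variable {K : Type} [Field K] [CharZero K] {n d : ℕ} {F : HP K n} (T : FF d F) (hF : Nice d F)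

/-- The ring of the chart `(i, j)`: `A i [1 / u_{i, i.succAbove j}]`. -/
def s30_LA (i : Fin (n + 2)) (e : Fin (n + 2)) (hu : T.u i e ∈ T.A i) : Subalgebra K T.L where
  carrier := {a | ∃ N : ℕ, T.u i e ^ N * a ∈ T.A i}
  mul_mem' := by
    rintro a b ⟨N, hN⟩ ⟨M, hM⟩
    refine ⟨N + M, ?_⟩
    have h : T.u i e ^ (N + M) * (a * b) = (T.u i e ^ N * a) * (T.u i e ^ M * b) := by
      rw [pow_add]
      ring
    rw [h]
    exact (T.A i).mul_mem hN hM
  add_mem' := by
    rintro a b ⟨N, hN⟩ ⟨M, hM⟩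
    refine ⟨N + M, ?_⟩
    have h : T.u i e ^ (N + M) * (a + b) = T.u i e ^ M * (T.u i e ^ N * a) + T.u i e ^ N * (T.u i e ^ M * b) := by
      rw [pow_add]
      ring
    rw [h]
    exact (T.A i).add_mem ((T.A i).mul_mem ((T.A i).pow_mem hu _) hN)
      ((T.A i).mul_mem ((T.A i).pow_mem hu _) hM)
  algebraMap_mem' := fun r => ⟨0, by
    rw [pow_zero, one_mul]
    exact (T.A i).algebraMap_mem r⟩

theorem s30_A_le_LA (i e : Fin (n + 2)) (hu : T.u i e ∈ T.A i) {a : T.L} (ha : a ∈ T.A i) : a ∈ T.s30_LA i e hu :=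
  ⟨0, by rwa [pow_zero, one_mul]⟩

theorem s30_z_mem (i l : Fin (n + 2)) : T.x l / T.x i ∈ T.A i := Algebra.subset_adjoin ⟨l, rfl⟩

/-- Membership in `x_i^e A_i`. -/
theorem s30_mem_OO (e : ℤ) (i : Fin (n + 2)) (v : T.L) : v ∈ T.OO e i ↔ ∃ a ∈ T.A i, v = T.x i ^ e * a := by
  constructor
  · intro hv
    induction hv using Submodule.span_induction with
    | mem x hx => exact hx
    | zero => exact ⟨0, (T.A i).zero_mem, by rw [mul_zero]⟩
    | add x y _ _ hx hy =>
      obtain ⟨a, ha, rfl⟩ := hx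
      obtain ⟨b, hb, rfl⟩ := hy
      exact ⟨a + b, (T.A i).add_mem ha hb, by ring⟩
    | smul c x _ hx =>
      obtain ⟨a, ha, rfl⟩ := hx
      exact ⟨c • a, (T.A i).smul_mem ha c, by rw [mul_smul_comm]⟩
  · rintro ⟨a, ha, rfl⟩
    exact Submodule.subset_span ⟨a, ha, rfl⟩

/-- The matrix of the partial derivatives of the coordinates of the chart. -/
noncomputable def s30_Pm (i : Fin (n + 2)) (j : Fin (n + 1)) : Matrix (Fin n) (Fin n) T.L :=
  Matrix.of fun m l => T.par m (T.y i j l)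

/-- The derivations dual to the coordinates of the chart. -/
noncomputable def s30_dy (i : Fin (n + 2)) (j : Fin (n + 1)) (l : Fin n) : Derivation K T.L T.L :=
  ∑ m, (T.s30_Pm i j)⁻¹ l m • T.par m

theorem s30_dy_apply (i : Fin (n + 2)) (j : Fin (n + 1)) (l : Fin n) (a : T.L) :
    T.s30_dy i j l a = ∑ m, (T.s30_Pm i j)⁻¹ l m * T.par m a := by
  unfold s30_dy
  rw [sum_der]
  rfl

include hF in
theorem s30_Pm_det (hd : 2 ≤ d) (i : Fin (n + 2)) (j : Fin (n + 1)) : (T.s30_Pm i j).det ≠ 0 := by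
  classical
  intro h0
  obtain ⟨c, hc, h1⟩ := Matrix.exists_mulVec_eq_zero_iff.2 h0
  apply hc
  have h2 : T.σ i j (∑ l, C (c l) * X ((0 : ℕ), l)) = 0 := by
    have h3 : T.σ i j (∑ l, C (c l) * X ((0 : ℕ), l)) = ∑ l, C (c l) * T.δ 0 (T.y i j l) := by
      rw [map_sum]
      refine Finset.sum_congr rfl fun l _ => ?_
      rw [map_mul]
      congr 1
      · exact (T.σ i j).commutes (c l)
      · exact aeval_X _ _
    rw [h3]
    have h4 : ∀ l, C (c l) * T.δ 0 (T.y i j l) = ∑ m, C (c l * T.par m (T.y i j l)) * X ((0 : ℕ), m) := by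
      intro l
      rw [δ, Finset.mul_sum]
      refine Finset.sum_congr rfl fun m _ => ?_
      rw [C_mul]
      ring
    rw [Finset.sum_congr rfl fun l _ => h4 l, Finset.sum_comm]
    refine Finset.sum_eq_zero fun m _ => ?_
    rw [← Finset.sum_mul, ← map_sum]
    have h5 := congrFun h1 m
    simp only [Matrix.mulVec, dotProduct, s30_Pm, Matrix.of_apply, Pi.zero_apply] at h5
    have h6 : ∑ l, c l * T.par m (T.y i j l) = 0 := by
      rw [← h5]
      exact Finset.sum_congr rfl fun l _ => mul_comm _ _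
    rw [h6, C_0, zero_mul]
  have h3 := (T.σ_bij hF hd i j).1 (h2.trans (map_zero _).symm)
  funext l
  have h4 := congrArg (coeff (Finsupp.single ((0 : ℕ), l) 1)) h3
  simp only [coeff_sum, coeff_C_mul, coeff_X, coeff_zero] at h4
  rw [Finset.sum_eq_single l] at h4
  · simpa using h4
  · intro l' _ hl'
    rw [if_neg, mul_zero]
    intro h5
    have h6 := (Finsupp.single_left_injective (one_ne_zero)) h5
    exact hl' (Prod.ext_iff.1 h6).2
  · intro h5
    exact absurd (Finset.mem_univ _) h5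

include hF in
theorem s30_dy_y (hd : 2 ≤ d) (i : Fin (n + 2)) (j : Fin (n + 1)) (l l' : Fin n) :
    T.s30_dy i j l (T.y i j l') = if l = l' then 1 else 0 := by
  classical
  rw [s30_dy_apply]
  have h1 : (T.s30_Pm i j)⁻¹ * T.s30_Pm i j = 1 := Matrix.nonsing_inv_mul _ (isUnit_iff_ne_zero.2 (T.s30_Pm_det hF hd i j))
  have h2 := congrFun (congrFun h1 l) l'
  rw [Matrix.mul_apply, Matrix.one_apply] at h2
  exact h2

include hF in
theorem s30_par_eq (hd : 2 ≤ d) (i : Fin (n + 2)) (j : Fin (n + 1)) (m : Fin n) (a : T.L) :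
    T.par m a = ∑ l, T.par m (T.y i j l) * T.s30_dy i j l a := by
  classical
  have h1 : T.s30_Pm i j * (T.s30_Pm i j)⁻¹ = 1 := Matrix.mul_nonsing_inv _ (isUnit_iff_ne_zero.2 (T.s30_Pm_det hF hd i j))
  have h2 : ∀ l, T.par m (T.y i j l) * T.s30_dy i j l a =
      ∑ m', (T.s30_Pm i j m l * (T.s30_Pm i j)⁻¹ l m') * T.par m' a := by
    intro l
    rw [s30_dy_apply, Finset.mul_sum]
    refine Finset.sum_congr rfl fun m' _ => ?_
    rw [s30_Pm, Matrix.of_apply, mul_assoc]
  rw [Finset.sum_congr rfl fun l _ => h2 l, Finset.sum_comm]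
  have h3 : ∀ m', ∑ l, (T.s30_Pm i j m l * (T.s30_Pm i j)⁻¹ l m') * T.par m' a =
      (if m = m' then 1 else 0) * T.par m' a := by
    intro m'
    rw [← Finset.sum_mul]
    have h4 := congrFun (congrFun h1 m) m'
    rw [Matrix.mul_apply, Matrix.one_apply] at h4
    rw [h4]
  rw [Finset.sum_congr rfl fun m' _ => h3 m']
  simp

include hF in
theorem s30_rel_dy (i : Fin (n + 2)) (j : Fin (n + 1)) (l : Fin n) :
    ∑ l', T.u i l' * T.s30_dy i j l (T.x l' / T.x i) = 0 := by
  classical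
  have h1 : ∀ m, ∑ l', T.u i l' * T.par m (T.x l' / T.x i) = 0 := by
    intro m
    have h2 := congrArg (coeff (Finsupp.single ((0 : ℕ), m) 1)) (T.rel hF i 0)
    simp only [δ, coeff_sum, coeff_C_mul, coeff_X, coeff_zero] at h2
    rw [← h2]
    refine Finset.sum_congr rfl fun l' _ => ?_
    rw [Finset.sum_eq_single m]
    · simp
    · intro l'' _ hl''
      rw [if_neg, mul_zero]
      intro h5
      have h6 := (Finsupp.single_left_injective (one_ne_zero)) h5
      exact hl'' (Prod.ext_iff.1 h6).2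
    · intro h5
      exact absurd (Finset.mem_univ _) h5
  have h2 : ∀ l', T.u i l' * T.s30_dy i j l (T.x l' / T.x i) =
      ∑ m, (T.s30_Pm i j)⁻¹ l m * (T.u i l' * T.par m (T.x l' / T.x i)) := by
    intro l'
    rw [s30_dy_apply, Finset.mul_sum]
    exact Finset.sum_congr rfl fun m _ => by ring
  rw [Finset.sum_congr rfl fun l' _ => h2 l', Finset.sum_comm]
  refine Finset.sum_eq_zero fun m _ => ?_
  rw [← Finset.mul_sum, h1 m, mul_zero]

include hF in
theorem s30_dy_z (hd : 2 ≤ d) (i : Fin (n + 2)) (j : Fin (n + 1)) (l : Fin n) (l' : Fin (n + 2)) :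
    T.u i (i.succAbove j) * T.s30_dy i j l (T.x l' / T.x i) ∈ T.A i := by
  classical
  have hz : ∀ l'' : Fin (n + 2), l'' ≠ i.succAbove j → T.s30_dy i j l (T.x l'' / T.x i) ∈ T.A i := by
    intro l'' h
    by_cases h1 : l'' = i
    · rw [h1, div_self (T.x_ne i), Derivation.map_one_eq_zero]
      exact (T.A i).zero_mem
    · obtain ⟨j', rfl⟩ := Fin.exists_succAbove_eq h1
      have h2 : j' ≠ j := fun h3 => h (by rw [h3])
      obtain ⟨l₂, rfl⟩ := Fin.exists_succAbove_eq h2
      have h3 := T.s30_dy_y hF hd i j l l₂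
      rw [y] at h3
      rw [h3]
      split_ifs
      · exact (T.A i).one_mem
      · exact (T.A i).zero_mem
  by_cases h : l' = i.succAbove j
  · have h1 := T.s30_rel_dy hF i j l
    rw [← Finset.add_sum_erase _ _ (Finset.mem_univ (i.succAbove j))] at h1
    rw [h, eq_neg_of_add_eq_zero_left h1]
    refine (T.A i).neg_mem ((T.A i).sum_mem fun l'' hl'' => ?_)
    exact (T.A i).mul_mem (T.u_mem hF i l'') (hz l'' (Finset.ne_of_mem_erase hl''))
  · exact (T.A i).mul_mem (T.u_mem hF i _) (hz l' h)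

include hF in
theorem s30_dy_A (hd : 2 ≤ d) (i : Fin (n + 2)) (j : Fin (n + 1)) (l : Fin n) {a : T.L} (ha : a ∈ T.A i) :
    T.u i (i.succAbove j) * T.s30_dy i j l a ∈ T.A i := by
  have h : ∀ a ∈ T.A i, a ∈ T.A i ∧ T.u i (i.succAbove j) * T.s30_dy i j l a ∈ T.A i := by
    intro a ha
    unfold A at ha
    induction ha using Algebra.adjoin_induction with
    | mem x hx =>
      obtain ⟨l', rfl⟩ := hx
      exact ⟨T.s30_z_mem i l', T.s30_dy_z hF hd i j l l'⟩
    | algebraMap r =>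
      refine ⟨(T.A i).algebraMap_mem r, ?_⟩
      rw [Derivation.map_algebraMap, mul_zero]
      exact (T.A i).zero_mem
    | add x y _ _ hx hy =>
      refine ⟨(T.A i).add_mem hx.1 hy.1, ?_⟩
      rw [map_add, mul_add]
      exact (T.A i).add_mem hx.2 hy.2
    | mul x y _ _ hx hy =>
      refine ⟨(T.A i).mul_mem hx.1 hy.1, ?_⟩
      rw [Derivation.leibniz, smul_eq_mul, smul_eq_mul]
      have h1 : T.u i (i.succAbove j) * (x * T.s30_dy i j l y + y * T.s30_dy i j l x) =
        x * (T.u i (i.succAbove j) * T.s30_dy i j l y) + y * (T.u i (i.succAbove j) * T.s30_dy i j l x) := by ring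
      rw [h1]
      exact (T.A i).add_mem ((T.A i).mul_mem hx.1 hy.2) ((T.A i).mul_mem hy.1 hx.2)
  exact (h a ha).2

include hF in
theorem s30_dy_LA (hd : 2 ≤ d) (i : Fin (n + 2)) (j : Fin (n + 1)) (l : Fin n) {a : T.L}
    (ha : a ∈ T.s30_LA i (i.succAbove j) (T.u_mem hF i _)) :
    T.s30_dy i j l a ∈ T.s30_LA i (i.succAbove j) (T.u_mem hF i _) := by
  obtain ⟨N, hN⟩ := ha
  refine ⟨N + N + 1, ?_⟩
  set u := T.u i (i.succAbove j) with hu
  have h1 : T.s30_dy i j l (u ^ N * a) = u ^ N * T.s30_dy i j l a + a * (N * (u ^ (N - 1) * T.s30_dy i j l u)) := by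
    rw [Derivation.leibniz, Derivation.leibniz_pow]
    simp only [smul_eq_mul, nsmul_eq_mul]
  have h2 : u ^ (N + N + 1) * T.s30_dy i j l a = u ^ N * (u * T.s30_dy i j l (u ^ N * a)) -
      (u ^ N * a) * (N * (u ^ (N - 1) * (u * T.s30_dy i j l u))) := by
    rw [h1]
    ring
  rw [h2]
  have hum : u ∈ T.A i := T.u_mem hF i _
  refine (T.A i).sub_mem ((T.A i).mul_mem ((T.A i).pow_mem hum _) (T.s30_dy_A hF hd i j l hN))
    ((T.A i).mul_mem hN ((T.A i).mul_mem (Subalgebra.natCast_mem _ _)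
      ((T.A i).mul_mem ((T.A i).pow_mem hum _) (T.s30_dy_A hF hd i j l hum))))

/-- The coordinates of jets of the chart `(i,j)`. -/
noncomputable def s30_τ (i : Fin (n + 2)) (j : Fin (n + 1)) : T.BB →ₐ[T.L] T.BB :=
  aeval fun p : ℕ × Fin n => (T.D : T.BB → T.BB)^[p.1 + 1] (C (T.y i j p.2))

include hF in
theorem s30_τ_tot (hd : 2 ≤ d) (i : Fin (n + 2)) (j : Fin (n + 1)) (P : T.BB) :
    T.s30_τ i j (totD (T.s30_dy i j) P) = T.D (T.s30_τ i j P) := by
  induction P using MvPolynomial.induction_on with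
  | C a =>
    rw [totD_C, map_sum]
    have h1 : T.s30_τ i j (C a) = C a := (T.s30_τ i j).commutes a
    rw [h1, D_C, δ]
    have h2 : ∀ l, T.s30_τ i j (C (T.s30_dy i j l a) * X ((0 : ℕ), l)) =
        ∑ m, C (T.par m (T.y i j l) * T.s30_dy i j l a) * X ((0 : ℕ), m) := by
      intro l
      rw [map_mul]
      have h3 : T.s30_τ i j (C (T.s30_dy i j l a)) = C (T.s30_dy i j l a) := (T.s30_τ i j).commutes _
      have h4 : T.s30_τ i j (X ((0 : ℕ), l)) = T.D (C (T.y i j l)) := by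
        unfold s30_τ
        rw [aeval_X]
        rfl
      rw [h3, h4, D_C, δ, Finset.mul_sum]
      refine Finset.sum_congr rfl fun m _ => ?_
      rw [C_mul]
      ring
    rw [Finset.sum_congr rfl fun l _ => h2 l, Finset.sum_comm]
    refine Finset.sum_congr rfl fun m _ => ?_
    rw [← Finset.sum_mul, ← map_sum, ← T.s30_par_eq hF hd i j m a]
  | add P Q hP hQ => rw [map_add, map_add, map_add, map_add, hP, hQ]
  | mul_X P p hP =>
    rw [Derivation.leibniz, map_mul, Derivation.leibniz]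
    simp only [smul_eq_mul, map_add, map_mul]
    rw [hP]
    have h1 : totD (T.s30_dy i j) (X p) = X (p.1 + 1, p.2) := totD_X (T.s30_dy i j) p.1 p.2
    have h2 : T.s30_τ i j (X (p.1 + 1, p.2)) = T.D (T.s30_τ i j (X p)) := by
      unfold s30_τ
      rw [aeval_X, aeval_X]
      change (T.D : T.BB → T.BB)^[p.1 + 1 + 1] _ = _
      rw [Function.iterate_succ_apply']
    rw [h1, h2]

include hF in
theorem s30_τ_iter (hd : 2 ≤ d) (i : Fin (n + 2)) (j : Fin (n + 1)) (s : ℕ) (a : T.L) :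
    T.s30_τ i j ((totD (T.s30_dy i j) : T.BB → T.BB)^[s] (C a)) = (T.D : T.BB → T.BB)^[s] (C a) := by
  induction s with
  | zero => exact (T.s30_τ i j).commutes a
  | succ s ih => rw [Function.iterate_succ_apply', Function.iterate_succ_apply', T.s30_τ_tot hF hd, ih]

include hF in
/-- Chart description of jet differentials. -/
theorem s30_chart_EE (hd : 2 ≤ d) (k : ℕ) (e : ℤ) (m : ℕ) (i : Fin (n + 2)) (j : Fin (n + 1)) (v : T.BB)
    (hv : v ∈ T.EE k e m i) : ∃ w : T.BB, v = T.s30_τ i j w ∧ Wt FF.w m w ∧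
      (∀ b, coeff b w ≠ 0 → ∀ p ∈ b.support, p.1 < k) ∧ ∀ b, coeff b w ∈ T.locA e i (i.succAbove j) := by
  classical
  set e' := i.succAbove j with he'
  have hum : T.u i e' ∈ T.A i := T.u_mem hF i _
  unfold EE at hv
  induction hv using Submodule.span_induction with
  | mem v hv =>
    obtain ⟨a, ha, q, s, l, hm, rfl⟩ := hv
    set f : Fin q → T.BB := fun r => (totD (T.s30_dy i j) : T.BB → T.BB)^[(s r : ℕ) + 1] (C (T.x (l r) / T.x i)) with hf
    have h1 : ∀ r, Wt FF.w ((s r : ℕ) + 1) (f r) ∧ Co (T.s30_LA i e' hum) (f r) := fun r =>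
      tot_iter (T.s30_dy i j) (T.s30_LA i e' hum) (fun l a ha => T.s30_dy_LA hF hd i j l ha) _
        (T.s30_A_le_LA i e' hum (T.s30_z_mem i _))
    have h2 : Wt FF.w m (∏ r, f r) := by
      rw [← hm]
      exact Wt.prod _ _ _ fun r _ => (h1 r).1
    have h3 : Co (T.s30_LA i e' hum) (∏ r, f r) := Co.prod _ _ fun r _ => (h1 r).2
    refine ⟨C (T.x i ^ e * a) * ∏ r, f r, ?_, ?_, ?_, ?_⟩
    · rw [map_mul (T.s30_τ i j) (C (T.x i ^ e * a)), map_prod]
      congr 1
      · exact ((T.s30_τ i j).commutes _).symm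
      · exact Finset.prod_congr rfl fun r _ => (T.s30_τ_iter hF hd i j _ _).symm
    · have h4 := (wt_C FF.w (T.x i ^ e * a)).mul h2
      rwa [zero_add] at h4
    · intro b hb p hp
      rw [coeff_C_mul] at hb
      have h4 : coeff b (∏ r, f r) ≠ 0 := right_ne_zero_of_mul hb
      have h5 : p ∈ (∏ r, f r).vars := (mem_vars_iff_mem_support p).2 ⟨b, mem_support_iff.2 h4, hp⟩
      have h6 := vars_prod (s := Finset.univ) f h5
      obtain ⟨r, _, h7⟩ := Finset.mem_biUnion.1 h6
      obtain ⟨b', hb', hp'⟩ := (mem_vars_iff_mem_support p).1 h7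
      exact order_lt (k := k) (s r).2 (h1 r).1 b' (mem_support_iff.1 hb') p hp'
    · intro b
      rw [coeff_C_mul]
      obtain ⟨N, hN⟩ := h3 b
      refine ⟨N, (T.s30_mem_OO e i _).2 ⟨a * (T.u i e' ^ N * coeff b (∏ r, f r)), (T.A i).mul_mem ha hN, ?_⟩⟩
      ring
  | zero =>
    refine ⟨0, (map_zero _).symm, wt_zero _ _, fun b hb => absurd (coeff_zero b) hb, fun b => ⟨0, ?_⟩⟩
    rw [coeff_zero, mul_zero]
    exact Submodule.zero_mem _
  | add x y _ _ hx hy =>
    obtain ⟨w, hw1, hw2, hw3, hw4⟩ := hx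
    obtain ⟨w', hw1', hw2', hw3', hw4'⟩ := hy
    refine ⟨w + w', by rw [hw1, hw1', map_add], hw2.add hw2', fun b hb p hp => ?_, fun b => ?_⟩
    · rw [coeff_add] at hb
      by_cases h1 : coeff b w = 0
      · rw [h1, zero_add] at hb
        exact hw3' b hb p hp
      · exact hw3 b h1 p hp
    · obtain ⟨N, hN⟩ := hw4 b
      obtain ⟨M, hM⟩ := hw4' b
      obtain ⟨a1, ha1, h1⟩ := (T.s30_mem_OO e i _).1 hN
      obtain ⟨a2, ha2, h2⟩ := (T.s30_mem_OO e i _).1 hM
      refine ⟨N + M, (T.s30_mem_OO e i _).2 ⟨T.u i e' ^ M * a1 + T.u i e' ^ N * a2,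
        (T.A i).add_mem ((T.A i).mul_mem ((T.A i).pow_mem hum _) ha1)
          ((T.A i).mul_mem ((T.A i).pow_mem hum _) ha2), ?_⟩⟩
      rw [coeff_add, pow_add]
      calc T.u i e' ^ N * T.u i e' ^ M * (coeff b w + coeff b w')
          = T.u i e' ^ M * (T.u i e' ^ N * coeff b w) + T.u i e' ^ N * (T.u i e' ^ M * coeff b w') := by ring
        _ = _ := by
          rw [h1, h2]
          ring
  | smul c x _ hx =>
    obtain ⟨w, hw1, hw2, hw3, hw4⟩ := hx
    have hcw : ∀ b, coeff b (c • w) = c • coeff b w := fun b => coeff_smul b c w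
    refine ⟨c • w, ?_, fun b hb => hw2 b ?_, fun b hb p hp => hw3 b ?_ p hp, fun b => ?_⟩
    · rw [hw1]
      exact ((T.s30_τ i j).toLinearMap.map_smul_of_tower c w).symm
    · intro h
      rw [hcw, h, smul_zero] at hb
      exact hb rfl
    · intro h
      rw [hcw, h, smul_zero] at hb
      exact hb rfl
    · obtain ⟨N, hN⟩ := hw4 b
      refine ⟨N, ?_⟩
      rw [hcw, mul_smul_comm]
      exact Submodule.smul_mem _ c hN

include hF in
/-- STRICT -/
theorem strict (hd : 2 ≤ d) (k : ℕ) (e : ℤ) (m q : ℕ) (i : Fin (n + 2)) (v : T.BB) (hv : v ∈ T.EE k e m i)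
    (h : ∀ j < q, homogeneousComponent j v = 0) : homogeneousComponent q v ∈ T.GG k e m q i := by
  classical
  refine T.patch_of i (fun j => T.u_mem hF i j) (T.smoothA hF hd i) (T.GG k e m q i)
    (T.stable_GG hF k e m q i) _ fun j' hj' => ?_
  obtain ⟨j, rfl⟩ := Fin.exists_succAbove_eq hj'
  obtain ⟨w, hw1, hw2, hw3, hw4⟩ := T.s30_chart_EE hF hd k e m i j v hv
  have hg : ∀ p : ℕ × Fin n, (T.δ p.1 (T.y i j p.2)).IsHomogeneous 1 := by
    intro p
    unfold δ
    refine IsHomogeneous.sum _ _ _ fun l _ => ?_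
    exact isHomogeneous_C_mul_X _ _
  have hfg : ∀ p : ℕ × Fin n, LowD 2 ((T.D : T.BB → T.BB)^[p.1 + 1] (C (T.y i j p.2)) - T.δ p.1 (T.y i j p.2)) :=
    fun p => (lowD_iff 2 _).2 (T.D_iter hF p.1 _).1
  have hcomp : ∀ r, LowD r w → homogeneousComponent r v = T.σ i j (homogeneousComponent r w) := by
    intro r hr
    rw [hw1]
    exact comp_aeval _ _ hg hfg w hr
  have hlow : ∀ r ≤ q, LowD r w := by
    intro r
    induction r with
    | zero => exact fun _ => lowD_zero' _
    | succ r ih =>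
      intro hr
      have h1 := ih (by omega)
      have h2 := hcomp r h1
      rw [h r (by omega)] at h2
      have h3 : homogeneousComponent r w = 0 := (T.σ_bij hF hd i j).1 (h2.symm.trans (map_zero _).symm)
      have h4 := lowD_tail h1
      rwa [h3, sub_zero] at h4
  have h1 := hcomp q (hlow q le_rfl)
  have h2 := (T.loc_GG hF hd k e m q i j (homogeneousComponent q v)).2
    ⟨homogeneousComponent q w, h1, fun b hb => ?_⟩
  · obtain ⟨N, hN⟩ := h2
    refine ⟨N, ?_⟩
    have h3 : T.u i (i.succAbove j) ^ N • homogeneousComponent q v =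
        C (T.u i (i.succAbove j)) ^ N * homogeneousComponent q v := by
      rw [← C_pow, C_mul']
    rw [h3]
    exact hN
  · rw [coeff_homogeneousComponent] at hb ⊢
    split_ifs at hb ⊢ with h3
    · exact ⟨hw3 b hb, hw2 b hb, h3, hw4 b⟩
    · exact absurd rfl hb

end Pool.Agent.H47.UG.FF
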