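import Mathlib

/-!
# Polynomials without monomials of small degree; comparison of two substitutions
-/

set_option autoImplicit false

open MvPolynomial

namespace Pool.Agent.H30.UG

variable {σ τ R : Type} [CommRing R]

/-- All the monomials of `P` have degree at least `r`. -/
def LowD (r : ℕ) (P : MvPolynomial σ R) : Prop := ∀ b, coeff b P ≠ 0 → r ≤ b.degree

theorem lowD_iff (r : ℕ) (P : MvPolynomial σ R) : LowD r P ↔ ∀ j < r, homogeneousComponent j P = 0 := by
  constructor
  · intro h j hj
    ext b
    rw [coeff_homogeneousComponent, coeff_zero]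
    split_ifs with h1
    · by_contra h2
      exact absurd (h b h2) (by omega)
    · rfl
  · intro h b hb
    by_contra h1
    push Not at h1
    apply hb
    have h2 := congrArg (coeff b) (h _ h1)
    rw [coeff_homogeneousComponent, if_pos rfl, coeff_zero] at h2
    exact h2

theorem lowD_zero (r : ℕ) : LowD r (0 : MvPolynomial σ R) := by
  intro b hb
  simp at hb

theorem lowD_zero' (P : MvPolynomial σ R) : LowD 0 P := fun _ _ => Nat.zero_le _

theorem LowD.mono {r s : ℕ} {P : MvPolynomial σ R} (h : LowD s P) (hrs : r ≤ s) : LowD r P :=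
  fun b hb => hrs.trans (h b hb)

theorem LowD.add {r : ℕ} {P Q : MvPolynomial σ R} (hP : LowD r P) (hQ : LowD r Q) : LowD r (P + Q) := by
  intro b hb
  rw [coeff_add] at hb
  by_cases h1 : coeff b P = 0
  · rw [h1, zero_add] at hb
    exact hQ b hb
  · exact hP b h1

theorem LowD.neg {r : ℕ} {P : MvPolynomial σ R} (hP : LowD r P) : LowD r (-P) := by
  intro b hb
  rw [coeff_neg, neg_ne_zero] at hb
  exact hP b hb

theorem LowD.sub {r : ℕ} {P Q : MvPolynomial σ R} (hP : LowD r P) (hQ : LowD r Q) : LowD r (P - Q) := by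
  rw [sub_eq_add_neg]
  exact hP.add hQ.neg

theorem LowD.sum {ι : Type} {r : ℕ} (s : Finset ι) (f : ι → MvPolynomial σ R) (h : ∀ i ∈ s, LowD r (f i)) :
    LowD r (∑ i ∈ s, f i) := by
  classical
  induction s using Finset.induction_on with
  | empty => simpa using lowD_zero r
  | insert a s ha ih =>
    rw [Finset.sum_insert ha]
    exact (h a (Finset.mem_insert_self _ _)).add (ih fun i hi => h i (Finset.mem_insert_of_mem hi))

theorem LowD.mul {r s : ℕ} {P Q : MvPolynomial σ R} (hP : LowD r P) (hQ : LowD s Q) : LowD (r + s) (P * Q) := by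
  classical
  intro b hb
  rw [coeff_mul] at hb
  obtain ⟨x, hx, h1⟩ := Finset.exists_ne_zero_of_sum_ne_zero hb
  have hx : x.1 + x.2 = b := by simpa using hx
  have h2 := hP x.1 (left_ne_zero_of_mul h1)
  have h3 := hQ x.2 (right_ne_zero_of_mul h1)
  rw [← hx, map_add]
  omega

theorem LowD.of_hom {r : ℕ} {P : MvPolynomial σ R} (h : P.IsHomogeneous r) : LowD r P := by
  intro b hb
  have := h hb
  rw [Finsupp.degree_eq_weight_one]
  exact this.ge

theorem LowD.pow {r : ℕ} {P : MvPolynomial σ R} (h : LowD r P) (n : ℕ) : LowD (r * n) (P ^ n) := by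
  induction n with
  | zero => exact lowD_zero' _
  | succ n ih =>
    rw [pow_succ, Nat.mul_succ]
    exact ih.mul h

theorem comp_of_lowD {r j : ℕ} {P : MvPolynomial σ R} (h : LowD r P) (hj : j < r) : homogeneousComponent j P = 0 :=
  (lowD_iff r P).1 h j hj

theorem lowD_tail {r : ℕ} {P : MvPolynomial σ R} (h : LowD r P) :
    LowD (r + 1) (P - homogeneousComponent r P) := by
  intro b hb
  rw [coeff_sub, coeff_homogeneousComponent] at hb
  split_ifs at hb with h1
  · simp at hb
  · rw [sub_zero] at hb
    have := h b hb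
    omega

variable (f g : τ → MvPolynomial σ R)

theorem low_pair (hg : ∀ p, (g p).IsHomogeneous 1) (hfg : ∀ p, LowD 2 (f p - g p)) (b : τ →₀ ℕ) :
    LowD b.degree (b.prod fun p k => f p ^ k) ∧ LowD b.degree (b.prod fun p k => g p ^ k) ∧
      LowD (b.degree + 1) ((b.prod fun p k => f p ^ k) - b.prod fun p k => g p ^ k) := by
  classical
  have hf : ∀ p, LowD 1 (f p) := fun p => by
    have h1 := ((hfg p).mono (r := 1) (by omega)).add (LowD.of_hom (hg p))
    rwa [sub_add_cancel] at h1
  induction b using Finsupp.induction_linear with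
  | zero =>
    refine ⟨lowD_zero' _, lowD_zero' _, ?_⟩
    simp only [Finsupp.prod_zero_index, sub_self]
    exact lowD_zero _
  | add b c hb hc =>
    obtain ⟨b1, b2, b3⟩ := hb
    obtain ⟨c1, c2, c3⟩ := hc
    rw [Finsupp.prod_add_index' (fun p => pow_zero _) (fun p i j => pow_add _ _ _),
      Finsupp.prod_add_index' (fun p => pow_zero _) (fun p i j => pow_add _ _ _), map_add]
    refine ⟨b1.mul c1, b2.mul c2, ?_⟩
    have h1 := (b1.mul c3).add ((b3.mul c2).mono (r := b.degree + (c.degree + 1)) (by omega))
    have h2 : (b.prod fun p k => f p ^ k) * ((c.prod fun p k => f p ^ k) - c.prod fun p k => g p ^ k) +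
        ((b.prod fun p k => f p ^ k) - b.prod fun p k => g p ^ k) * (c.prod fun p k => g p ^ k) =
        (b.prod fun p k => f p ^ k) * (c.prod fun p k => f p ^ k) -
          (b.prod fun p k => g p ^ k) * (c.prod fun p k => g p ^ k) := by ring
    rw [h2] at h1
    exact h1
  | single p k =>
    rw [Finsupp.prod_single_index (h := fun p k => f p ^ k) (pow_zero _),
      Finsupp.prod_single_index (h := fun p k => g p ^ k) (pow_zero _), Finsupp.degree_single]
    have h1 := (hf p).pow k
    have h2 := (LowD.of_hom (hg p)).pow k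
    rw [one_mul] at h1 h2
    refine ⟨h1, h2, ?_⟩
    clear h1 h2
    induction k with
    | zero => simpa using lowD_zero _
    | succ k ih =>
      have h1 := (hf p).pow k
      have h3 : f p ^ (k + 1) - g p ^ (k + 1) = f p ^ k * (f p - g p) + (f p ^ k - g p ^ k) * g p := by ring
      rw [h3]
      have h4 := h1.mul (hfg p)
      have h5 := ih.mul (LowD.of_hom (hg p))
      exact (h4.mono (by omega)).add (h5.mono (by omega))

theorem low_aeval (hg : ∀ p, (g p).IsHomogeneous 1) (hfg : ∀ p, LowD 2 (f p - g p)) {r : ℕ}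
    (w : MvPolynomial τ R) (h : LowD r w) :
    LowD r (aeval f w) ∧ LowD (r + 1) (aeval f w - aeval g w) := by
  classical
  have h1 : ∀ (f : τ → MvPolynomial σ R), aeval f w = ∑ b ∈ w.support, C (coeff b w) * b.prod fun p k => f p ^ k := by
    intro f
    rw [aeval_def, eval₂_eq]
    rfl
  rw [h1 f, h1 g, ← Finset.sum_sub_distrib]
  constructor
  · refine LowD.sum _ _ fun b hb => ?_
    have h2 := (lowD_zero' (C (coeff b w) : MvPolynomial σ R)).mul (low_pair f g hg hfg b).1
    rw [zero_add] at h2
    exact h2.mono (h b (mem_support_iff.1 hb))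
  · refine LowD.sum _ _ fun b hb => ?_
    rw [← mul_sub]
    have h2 := (lowD_zero' (C (coeff b w) : MvPolynomial σ R)).mul (low_pair f g hg hfg b).2.2
    rw [zero_add] at h2
    exact h2.mono (Nat.succ_le_succ (h b (mem_support_iff.1 hb)))

theorem comp_aeval (hg : ∀ p, (g p).IsHomogeneous 1) (hfg : ∀ p, LowD 2 (f p - g p)) {r : ℕ}
    (w : MvPolynomial τ R) (h : LowD r w) :
    homogeneousComponent r (aeval f w) = aeval g (homogeneousComponent r w) := by
  have h1 : w = homogeneousComponent r w + (w - homogeneousComponent r w) := by ring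
  have h2 := lowD_tail h
  have h3 : LowD r (homogeneousComponent r w) := LowD.of_hom (homogeneousComponent_isHomogeneous r w)
  have h4 := low_aeval f g hg hfg _ h3
  have h5 := low_aeval f g hg hfg _ h2
  have h6 : aeval f w = aeval g (homogeneousComponent r w) +
      ((aeval f (homogeneousComponent r w) - aeval g (homogeneousComponent r w)) +
        aeval f (w - homogeneousComponent r w)) := by
    conv_lhs => rw [h1, map_add]
    ring
  rw [h6, map_add, comp_of_lowD (h4.2.add h5.1) (Nat.lt_succ_self r), add_zero]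
  have h7 : (aeval g (homogeneousComponent r w) : MvPolynomial σ R).IsHomogeneous r := by
    have := (homogeneousComponent_isHomogeneous r w).aeval g hg
    rwa [one_mul] at this
  exact homogeneousComponent_eq_self h7

end Pool.Agent.H30.UG
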